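import Pool.Agent.Helper99.SZ.Stmts3
import Pool.Agent.Helper99.SZ.SF2
import Pool.Agent.Helper99.SZ.NUM3

/-!
# The final bound, for all primes together
-/

set_option autoImplicit false

namespace Pool.Helper99.SZ

open NumberField

/-- powers -/
theorem fi3_pow (Cs m : ℕ) (R : ℝ) (hR : 1 ≤ R) (hm : (m : ℝ) + 1 ≤ 2 * R)
    (hRm : R ^ m ≤ Real.exp (4 * R)) :
    ((Cs : ℝ) * R) ^ (Cs * (m + 1)) ≤ Real.exp (Cs * (2 * Cs + 5) * R) := by
  have hCs : (0 : ℝ) ≤ Cs := Nat.cast_nonneg _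
  have h1 : ((Cs : ℝ) * R) ^ (m + 1) ≤ Real.exp ((2 * Cs + 5) * R) := by
    have e1 : (Cs : ℝ) ^ (m + 1) ≤ Real.exp (2 * Cs * R) := by
      calc (Cs : ℝ) ^ (m + 1) ≤ (Real.exp Cs) ^ (m + 1) :=
            pow_le_pow_left₀ hCs (by
              have := Real.add_one_le_exp (Cs : ℝ)
              linarith) _
        _ = Real.exp (((m + 1 : ℕ) : ℝ) * Cs) := by rw [← Real.exp_nat_mul]
        _ ≤ Real.exp (2 * Cs * R) := Real.exp_le_exp.2 (by
            push_cast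
            nlinarith)
    have e2 : R ^ (m + 1) ≤ Real.exp (5 * R) := by
      rw [pow_succ]
      calc R ^ m * R ≤ Real.exp (4 * R) * Real.exp R :=
            mul_le_mul hRm (by
              have := Real.add_one_le_exp R
              linarith) (by linarith) (Real.exp_pos _).le
        _ = Real.exp (5 * R) := by
            rw [← Real.exp_add]
            congr 1
            ring
    rw [mul_pow]
    calc (Cs : ℝ) ^ (m + 1) * R ^ (m + 1) ≤ Real.exp (2 * Cs * R) * Real.exp (5 * R) :=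
          mul_le_mul e1 e2 (by positivity) (Real.exp_pos _).le
      _ = Real.exp ((2 * Cs + 5) * R) := by
          rw [← Real.exp_add]
          congr 1
          ring
  rw [mul_comm Cs (m + 1), pow_mul]
  calc (((Cs : ℝ) * R) ^ (m + 1)) ^ Cs ≤ (Real.exp ((2 * Cs + 5) * R)) ^ Cs :=
        pow_le_pow_left₀ (by positivity) h1 _
    _ = Real.exp (Cs * (2 * Cs + 5) * R) := by
        rw [← Real.exp_nat_mul]
        congr 1
        ring

/-- `R` -/
theorem fi3_R (W : WeierstrassCurve ℤ) (s : Finset ℕ)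
    (hs : s = W.Δ.natAbs.primeFactors.filter (fun p : ℕ => ¬ (p : ℤ) ∣ W.c₄)) :
    ∑ p ∈ W.Δ.natAbs.primeFactors,
      (if (p : ℤ) ∣ W.c₄ then (W.Δ.natAbs.factorization p : ℝ) else 1) * Real.log p =
    ∑ p ∈ W.Δ.natAbs.primeFactors \ s, (W.Δ.natAbs.factorization p : ℝ) * Real.log p +
      ∑ p ∈ s, Real.log p := by
  have hsub : s ⊆ W.Δ.natAbs.primeFactors := by
    rw [hs]
    exact Finset.filter_subset _ _
  rw [← Finset.sum_sdiff hsub]
  congr 1
  · refine Finset.sum_congr rfl fun p hp => ?_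
    rw [Finset.mem_sdiff, hs, Finset.mem_filter] at hp
    have : (p : ℤ) ∣ W.c₄ := by
      by_contra h
      exact hp.2 ⟨hp.1, h⟩
    rw [if_pos this]
  · refine Finset.sum_congr rfl fun p hp => ?_
    rw [hs, Finset.mem_filter] at hp
    rw [if_neg hp.2, one_mul]

/-- the terms of `R` -/
theorem fi3_w (W : WeierstrassCurve ℤ) (hΔ : W.Δ ≠ 0) (p : ℕ)
    (hp : p ∈ W.Δ.natAbs.primeFactors) : 0 ≤ Real.log p ∧ Real.log p ≤
      (if (p : ℤ) ∣ W.c₄ then (W.Δ.natAbs.factorization p : ℝ) else 1) * Real.log p := by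
  have hpp := Nat.prime_of_mem_primeFactors hp
  have h1 : 1 ≤ W.Δ.natAbs.factorization p :=
    hpp.factorization_pos_of_dvd (Int.natAbs_ne_zero.2 hΔ) (Nat.dvd_of_mem_primeFactors hp)
  have h2 : (1 : ℝ) ≤ (W.Δ.natAbs.factorization p : ℝ) := by exact_mod_cast h1
  have h3 : 0 ≤ Real.log p := Real.log_nonneg (by exact_mod_cast hpp.one_lt.le)
  refine ⟨h3, ?_⟩
  split_ifs
  · nlinarith
  · linarith

/-- sums over a subset -/
theorem fi3_sub (W : WeierstrassCurve ℤ) (hΔ : W.Δ ≠ 0) (s : Finset ℕ)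
    (hs : s ⊆ W.Δ.natAbs.primeFactors) (R : ℝ)
    (hR : R = 1 + ∑ p ∈ W.Δ.natAbs.primeFactors,
      (if (p : ℤ) ∣ W.c₄ then (W.Δ.natAbs.factorization p : ℝ) else 1) * Real.log p) :
    ∑ p ∈ s, Real.log p ≤ R - 1 := by
  rw [hR, add_sub_cancel_left]
  refine (Finset.sum_le_sum fun p hp => (fi3_w W hΔ p (hs hp)).2).trans ?_
  exact Finset.sum_le_sum_of_subset_of_nonneg hs fun p hp _ =>
    (fi3_w W hΔ p hp).1.trans (fi3_w W hΔ p hp).2

/-- the small part of the discriminant -/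
theorem fi3_small (W : WeierstrassCurve ℤ) (hΔ : W.Δ ≠ 0) (x : ℝ) (hx : 1 ≤ x) (s : Finset ℕ)
    (hs : s = W.Δ.natAbs.primeFactors.filter (fun p : ℕ => ¬ (p : ℤ) ∣ W.c₄ ∧
      x ≤ (W.Δ.natAbs.factorization p : ℝ))) (R : ℝ)
    (hR : R = 1 + ∑ p ∈ W.Δ.natAbs.primeFactors,
      (if (p : ℤ) ∣ W.c₄ then (W.Δ.natAbs.factorization p : ℝ) else 1) * Real.log p) :
    ∑ p ∈ W.Δ.natAbs.primeFactors \ s, (W.Δ.natAbs.factorization p : ℝ) * Real.log p ≤ x * R := by
  have h1 : ∀ p ∈ W.Δ.natAbs.primeFactors \ s,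
      (W.Δ.natAbs.factorization p : ℝ) * Real.log p ≤
      x * ((if (p : ℤ) ∣ W.c₄ then (W.Δ.natAbs.factorization p : ℝ) else 1) * Real.log p) := by
    intro p hp
    rw [Finset.mem_sdiff] at hp
    obtain ⟨w1, w2⟩ := fi3_w W hΔ p hp.1
    have h2 : (0 : ℝ) ≤ (W.Δ.natAbs.factorization p : ℝ) := Nat.cast_nonneg _
    by_cases hc : (p : ℤ) ∣ W.c₄
    · rw [if_pos hc]
      exact le_mul_of_one_le_left (mul_nonneg h2 w1) hx
    · rw [if_neg hc, one_mul]
      refine mul_le_mul_of_nonneg_right ?_ w1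
      by_contra hcon
      apply hp.2
      rw [hs, Finset.mem_filter]
      exact ⟨hp.1, hc, (not_le.1 hcon).le⟩
  refine (Finset.sum_le_sum h1).trans ?_
  rw [← Finset.mul_sum]
  refine mul_le_mul_of_nonneg_left ?_ (by linarith)
  have h3 : ∑ p ∈ W.Δ.natAbs.primeFactors \ s,
      (if (p : ℤ) ∣ W.c₄ then (W.Δ.natAbs.factorization p : ℝ) else 1) * Real.log p ≤
      ∑ p ∈ W.Δ.natAbs.primeFactors,
      (if (p : ℤ) ∣ W.c₄ then (W.Δ.natAbs.factorization p : ℝ) else 1) * Real.log p :=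
    Finset.sum_le_sum_of_subset_of_nonneg Finset.sdiff_subset fun p hp _ =>
      (fi3_w W hΔ p hp).1.trans (fi3_w W hΔ p hp).2
  linarith

/-- an enumeration of a finite set -/
theorem fi3_enum (s : Finset ℕ) : ∃ pp : Fin s.card → ℕ, Function.Injective pp ∧
    (∀ i, pp i ∈ s) ∧ ∀ f : ℕ → ℝ, ∑ i, f (pp i) = ∑ p ∈ s, f p := by
  refine ⟨fun i => (s.equivFin.symm i : ℕ), ?_, ?_, ?_⟩
  · intro i j hij
    exact s.equivFin.symm.injective (Subtype.ext hij)
  · intro i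
    exact (s.equivFin.symm i).2
  · intro f
    rw [← Finset.sum_coe_sort s, ← Equiv.sum_comp s.equivFin.symm]

/-- the a priori bound -/
theorem fi3_apr (hSF2 : ST_SF2) (hCLA : ST_CLA) : ∃ c : ℝ, 1 ≤ c ∧ ∀ W : WeierstrassCurve ℤ,
    W.Δ ≠ 0 → (∀ x : ℚ, 4 * x ^ 3 + W.b₂ * x ^ 2 + 2 * W.b₄ * x + W.b₆ ≠ 0) → ∀ R : ℝ,
    R = 1 + ∑ p ∈ W.Δ.natAbs.primeFactors,
      (if (p : ℤ) ∣ W.c₄ then (W.Δ.natAbs.factorization p : ℝ) else 1) * Real.log p →
    1 ≤ R ∧ 1 ≤ cond W ∧ Real.log (cond W : ℝ) ≤ 2 * R ∧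
      Real.log |(W.Δ : ℝ)| ≤ Real.exp (c * R) := by
  obtain ⟨Cs, hsf⟩ := hSF2
  obtain ⟨C2, hC2, hcla⟩ := hCLA 1 1 one_pos le_rfl
  have hCs : (0 : ℝ) ≤ Cs := Nat.cast_nonneg _
  have hCs2 : (0 : ℝ) ≤ Cs * (2 * Cs + 5) := by positivity
  refine ⟨Cs * (2 * Cs + 5) + 5, by linarith, ?_⟩
  intro W hΔ hirr R hR
  obtain ⟨s, hs⟩ : ∃ s : Finset ℕ, s = W.Δ.natAbs.primeFactors.filter
    (fun p : ℕ => ¬ (p : ℤ) ∣ W.c₄) := ⟨_, rfl⟩
  have hsub : s ⊆ W.Δ.natAbs.primeFactors := by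
    rw [hs]
    exact Finset.filter_subset _ _
  have hsc : ∀ p ∈ s, ¬ (p : ℤ) ∣ W.c₄ := by
    intro p hp
    rw [hs, Finset.mem_filter] at hp
    exact hp.2
  have hsp : ∀ p ∈ s, p.Prime ∧ (p : ℤ) ∣ W.Δ ∧ ¬ (p : ℤ) ∣ W.c₄ := by
    intro p hp
    refine ⟨Nat.prime_of_mem_primeFactors (hsub hp), ?_, hsc p hp⟩
    exact Int.natCast_dvd.2 (Nat.dvd_of_mem_primeFactors (hsub hp))
  have hDne : W.Δ.natAbs ≠ 0 := Int.natAbs_ne_zero.2 hΔ
  have habs : Real.log |(W.Δ : ℝ)| = Real.log (W.Δ.natAbs : ℝ) := by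
    rw [Nat.cast_natAbs, Int.cast_abs]
  have hsumR := fi3_sub W hΔ s hsub R hR
  have hRf := fi3_R W s hs
  have hRR := hR
  rw [hRf] at hRR
  have hRdef := szf_R W.Δ.natAbs hDne s hsub
  rw [← habs, add_assoc, ← hRR] at hRdef
  obtain ⟨hc1, hc2⟩ := szf_cond W hΔ s hsub hsc
  have hR10 : 0 ≤ ∑ p ∈ s, Real.log p :=
    Finset.sum_nonneg fun p hp => szf_nonneg _ s hsub p hp
  have hR1 : 1 ≤ R := by linarith
  have hcR : Real.log (cond W : ℝ) ≤ 2 * R := by linarith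
  refine ⟨hR1, hc1, hcR, ?_⟩
  obtain ⟨pp, hinj, hpps, hpsum⟩ := fi3_enum s
  obtain ⟨k1, _, _, _, k5⟩ := hcla s.card R pp hR1 hinj (fun j => (hsp _ (hpps j)).1) (by
    rw [hpsum (fun p => Real.log p)]
    linarith)
  have hpow := fi3_pow Cs s.card R hR1 k1 k5
  have hcR1 : (1 : ℝ) ≤ (cond W : ℝ) := by exact_mod_cast hc1
  have hsce : Real.sqrt (cond W : ℝ) ≤ Real.exp R := by
    rw [Real.sqrt_le_left (Real.exp_pos _).le, ← Real.exp_nat_mul,
      ← Real.log_le_iff_le_exp (by linarith)]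
    push_cast
    linarith
  have hv : ∀ p ∈ s, (W.Δ.natAbs.factorization p : ℝ) * Real.log p ≤
      Real.exp ((Cs * (2 * Cs + 5) + 2) * R) := by
    intro p hp
    have h1 := hsf W hΔ hirr s hsp p hp
    rw [hRdef] at h1
    refine h1.trans ?_
    have h2 : (if Even (W.Δ.natAbs.factorization p) then (p : ℝ) else 1) ≤ Real.exp R := by
      have e1 : (p : ℝ) ≤ Real.exp R := by
        rw [← Real.log_le_iff_le_exp (by exact_mod_cast (hsp p hp).1.pos)]
        have : Real.log p ≤ ∑ p ∈ s, Real.log p :=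
          Finset.single_le_sum (f := fun p : ℕ => Real.log (p : ℝ))
            (fun j hj => szf_nonneg _ s hsub j hj) hp
        linarith
      split_ifs
      · exact e1
      · have := Real.add_one_le_exp R
        linarith
    have h3 : 0 ≤ (if Even (W.Δ.natAbs.factorization p) then (p : ℝ) else 1) := by
      split_ifs
      · exact Nat.cast_nonneg _
      · norm_num
    calc Real.sqrt (cond W) * (if Even (W.Δ.natAbs.factorization p) then (p : ℝ) else 1) *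
          ((Cs : ℝ) * R) ^ (Cs * (s.card + 1))
        ≤ Real.exp R * Real.exp R * Real.exp (Cs * (2 * Cs + 5) * R) :=
          mul_le_mul (mul_le_mul hsce h2 h3 (Real.exp_pos _).le) hpow (by positivity)
            (by positivity)
      _ = Real.exp ((Cs * (2 * Cs + 5) + 2) * R) := by
          rw [← Real.exp_add, ← Real.exp_add]
          congr 1
          ring
  have hlog : Real.log |(W.Δ : ℝ)| ≤ R + s.card * Real.exp ((Cs * (2 * Cs + 5) + 2) * R) := by
    rw [habs, szf_log _ hDne, ← Finset.sum_sdiff hsub]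
    have h1 := Finset.sum_le_card_nsmul s (fun p : ℕ => (W.Δ.natAbs.factorization p : ℝ) *
      Real.log p) _ hv
    rw [nsmul_eq_mul] at h1
    linarith
  refine hlog.trans ?_
  have h2 : (s.card : ℝ) ≤ Real.exp (2 * R) := by
    have := Real.add_one_le_exp (2 * R)
    linarith
  have h3 : (s.card : ℝ) * Real.exp ((Cs * (2 * Cs + 5) + 2) * R) ≤
      Real.exp ((Cs * (2 * Cs + 5) + 4) * R) := by
    calc (s.card : ℝ) * Real.exp ((Cs * (2 * Cs + 5) + 2) * R)
        ≤ Real.exp (2 * R) * Real.exp ((Cs * (2 * Cs + 5) + 2) * R) :=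
          mul_le_mul_of_nonneg_right h2 (Real.exp_pos _).le
      _ = _ := by
          rw [← Real.exp_add]
          congr 1
          ring
  have h4 : R ≤ Real.exp ((Cs * (2 * Cs + 5) + 4) * R) := by
    have e1 : R ≤ (Cs * (2 * Cs + 5) + 4) * R := by nlinarith
    have := Real.add_one_le_exp ((Cs * (2 * Cs + 5) + 4) * R)
    linarith
  have h5 : (2 : ℝ) ≤ Real.exp R := by
    have := Real.add_one_le_exp R
    linarith
  calc R + s.card * Real.exp ((Cs * (2 * Cs + 5) + 2) * R)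
      ≤ 2 * Real.exp ((Cs * (2 * Cs + 5) + 4) * R) := by linarith
    _ ≤ Real.exp R * Real.exp ((Cs * (2 * Cs + 5) + 4) * R) :=
        mul_le_mul_of_nonneg_right h5 (Real.exp_pos _).le
    _ = Real.exp ((Cs * (2 * Cs + 5) + 5) * R) := by
        rw [← Real.exp_add]
        congr 1
        ring

/-- a maximum -/
theorem fi3_max {m : ℕ} (V : Fin m → ℝ) (hV : ∀ j, 0 ≤ V j) :
    ∃ M : ℝ, 0 ≤ M ∧ (∀ j, V j ≤ M) ∧ (M = 0 ∨ ∃ j0, V j0 = M) := by
  rcases Nat.eq_zero_or_pos m with h | h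
  · subst h
    exact ⟨0, le_rfl, fun j => j.elim0, Or.inl rfl⟩
  · obtain ⟨j0, _, hj0⟩ := Finset.exists_max_image Finset.univ V ⟨⟨0, h⟩, Finset.mem_univ _⟩
    exact ⟨V j0, hV j0, fun j => hj0 j (Finset.mem_univ _), Or.inr ⟨j0, rfl⟩⟩

/-- the two cases -/
theorem fi3_cases (R A Y Ch Cx M S D : ℝ) (hR : 1 ≤ R) (hA : 1 ≤ A) (hAY : A ≤ Y) (hCh : 1 ≤ Ch)
    (hCx : 1 ≤ Cx) (hM : 0 ≤ M) (_hS : 0 ≤ S) (hD : D ≤ A + 2 * R * M)
    (hP : 1 ≤ max S M → max S M ≤ 4 * Ch * R * M → M ≤ Cx * Y)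
    (hcase : S ≤ Ch * (1 + D) ∨ (1 ≤ S → M ≤ S → S ≤ Cx * Y)) :
    M ≤ Cx * Y ∧ S ≤ 4 * Ch * R * (Cx * Y) := by
  have hY : 1 ≤ Y := hA.trans hAY
  have hCY : Y ≤ Cx * Y := le_mul_of_one_le_left (by linarith) hCx
  have hChR : 1 ≤ Ch * R := one_le_mul_of_one_le_of_one_le hCh hR
  have hCR : 1 ≤ 4 * Ch * R := by linarith
  have hCR0 : 0 ≤ 4 * Ch * R := by linarith
  have hCY0 : 0 ≤ Cx * Y := by linarith
  have hup : Cx * Y ≤ 4 * Ch * R * (Cx * Y) := le_mul_of_one_le_left hCY0 hCR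
  have h5 : M ≤ 4 * Ch * R * M := le_mul_of_one_le_left hM hCR
  rcases hcase with h | h
  · have h1 : S ≤ Ch * (1 + A + 2 * R * M) :=
      h.trans (mul_le_mul_of_nonneg_left (by linarith) (by linarith))
    rcases le_or_gt M A with h2 | h2
    · refine ⟨by linarith, ?_⟩
      have h3 : 1 + A + 2 * R * M ≤ 4 * R * A := by
        have e1 : R * M ≤ R * A := mul_le_mul_of_nonneg_left h2 (by linarith)
        have e2 : A ≤ R * A := le_mul_of_one_le_left (by linarith) hR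
        linarith
      calc S ≤ Ch * (4 * R * A) := h1.trans (mul_le_mul_of_nonneg_left h3 (by linarith))
        _ = 4 * Ch * R * A := by ring
        _ ≤ 4 * Ch * R * (Cx * Y) := mul_le_mul_of_nonneg_left (by linarith) hCR0
    · have h3 : 1 + A + 2 * R * M ≤ 4 * R * M := by
        have e2 : M ≤ R * M := le_mul_of_one_le_left hM hR
        linarith
      have h4 : S ≤ 4 * Ch * R * M := by
        calc S ≤ Ch * (4 * R * M) := h1.trans (mul_le_mul_of_nonneg_left h3 (by linarith))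
          _ = 4 * Ch * R * M := by ring
      have h6 := hP (le_max_of_le_right (by linarith)) (max_le h4 h5)
      exact ⟨h6, h4.trans (mul_le_mul_of_nonneg_left h6 hCR0)⟩
  · rcases le_or_gt M S with h2 | h2
    · rcases le_or_gt 1 S with h3 | h3
      · have h4 := h h3 h2
        exact ⟨h2.trans h4, h4.trans hup⟩
      · exact ⟨by linarith, by linarith⟩
    · rcases le_or_gt M 1 with h3 | h3
      · exact ⟨by linarith, by linarith⟩
      · have h6 := hP (le_max_of_le_right h3.le) (max_le (h2.le.trans h5) h5)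
        exact ⟨h6, (h2.le.trans h6).trans hup⟩

/-- the final estimate -/
theorem fi3_end (δ ε R Ch Cx sc B ν A E Y : ℝ) (hδ : 0 < δ) (hδε : 3 * δ ≤ ε) (hR : 1 ≤ R)
    (hCh : 1 ≤ Ch) (hCx : 1 ≤ Cx) (hsc : 1 ≤ sc) (hB : 1 ≤ B)
    (hν : ν = 142 * sc * (8 * R) ^ 8) (hA : A = 7 * R * Real.exp (δ * R))
    (hE : E = Real.exp (δ * R)) (hY : Y = ν * A * B * E) :
    6 * Ch * R * (Cx * Y) ≤ (6 * Ch * Cx * (142 * 8 ^ 8 * 7) *
      (((10 : ℕ).factorial : ℝ) / δ ^ 10)) * sc * B * Real.exp (ε * R) := by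
  have h1 := n3_pow 10 δ R hδ (by linarith)
  obtain ⟨F, hF⟩ : ∃ F : ℝ, F = (((10 : ℕ).factorial : ℝ) / δ ^ 10) := ⟨_, rfl⟩
  rw [← hF] at h1 ⊢
  have hF0 : 0 ≤ F := by
    rw [hF]
    have : (0 : ℝ) ≤ ((10 : ℕ).factorial : ℝ) := Nat.cast_nonneg _
    positivity
  have h2 : 6 * Ch * R * (Cx * Y) = (6 * Ch * Cx * (142 * 8 ^ 8 * 7)) * sc * B *
      (R ^ 10 * (Real.exp (δ * R) * Real.exp (δ * R))) := by
    rw [hY, hν, hA, hE, mul_pow]
    ring
  have h3 : R ^ 10 * (Real.exp (δ * R) * Real.exp (δ * R)) ≤ F * Real.exp (ε * R) := by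
    calc R ^ 10 * (Real.exp (δ * R) * Real.exp (δ * R))
        ≤ (F * Real.exp (δ * R)) * (Real.exp (δ * R) * Real.exp (δ * R)) :=
          mul_le_mul_of_nonneg_right h1 (by positivity)
      _ = F * Real.exp (3 * δ * R) := by
          have : Real.exp (3 * δ * R) = Real.exp (δ * R) * Real.exp (δ * R) *
              Real.exp (δ * R) := by
            rw [← Real.exp_add, ← Real.exp_add]
            congr 1
            ring
          rw [this]
          ring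
      _ ≤ F * Real.exp (ε * R) := mul_le_mul_of_nonneg_left
          (Real.exp_le_exp.2 (mul_le_mul_of_nonneg_right hδε (by linarith))) hF0
  rw [h2]
  calc (6 * Ch * Cx * (142 * 8 ^ 8 * 7)) * sc * B *
      (R ^ 10 * (Real.exp (δ * R) * Real.exp (δ * R)))
      ≤ (6 * Ch * Cx * (142 * 8 ^ 8 * 7)) * sc * B * (F * Real.exp (ε * R)) :=
        mul_le_mul_of_nonneg_left h3 (by positivity)
    _ = _ := by ring

set_option maxHeartbeats 1600000 in
theorem st_FI3 (hTPA : ST_TPA) (hTAR : ST_TAR) (hHDI : ST_HDI) (hC4L : ST_C4L) (hSF2 : ST_SF2)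
    (hHPL : ST_HPL) (hSIZ : ST_SIZ) (hFLW : ST_FLW) (_hCU1 : ST_CU1) (hCU2 : ST_CU2)
    (hIDC : BK.ST_IDC) (hCLA : ST_CLA) : ST_FI3 := by
  intro ε hε
  obtain ⟨δ, hδ⟩ : ∃ δ : ℝ, δ = min (ε / 3) 1 := ⟨_, rfl⟩
  have hδ0 : 0 < δ := by
    rw [hδ]
    exact lt_min (by positivity) one_pos
  have hδε : 3 * δ ≤ ε := by
    have : δ ≤ ε / 3 := by
      rw [hδ]
      exact min_le_left _ _
    linarith
  have hδ1 : δ ≤ 1 := by
    rw [hδ]
    exact min_le_right _ _
  obtain ⟨c, hc, hapr⟩ := fi3_apr hSF2 hCLA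
  obtain ⟨C2, hC2, hsiz⟩ := hSIZ
  obtain ⟨C3, hC3, hhpl⟩ := hHPL
  obtain ⟨Ch, hCh, hhdi⟩ := hHDI
  have hC23 : 0 ≤ C2 * C3 := by positivity
  obtain ⟨C0, hC0⟩ : ∃ C0 : ℝ, C0 = 4 * Ch + 11 + (10 * C2 * C3 + 1 + 19 * (c + 1)) := ⟨_, rfl⟩
  have hC01 : 1 ≤ C0 := by
    rw [hC0]
    linarith
  obtain ⟨CT, hCT, htpa⟩ := hTPA δ C0 hδ0 hC01
  obtain ⟨CA, hCA, htar⟩ := hTAR δ C0 hδ0 hC01
  obtain ⟨Cx, hCx⟩ : ∃ Cx : ℝ, Cx = CT + 2 * CA := ⟨_, rfl⟩
  have hCx1 : 1 ≤ Cx := by linarith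
  obtain ⟨Cf, hCf⟩ : ∃ Cf : ℝ, Cf = 6 * Ch * Cx * (142 * 8 ^ 8 * 7) *
      (((10 : ℕ).factorial : ℝ) / δ ^ 10) := ⟨_, rfl⟩
  have hCf1 : 1 ≤ Cf := by
    have e1 : (1 : ℝ) ≤ ((10 : ℕ).factorial : ℝ) / δ ^ 10 := by
      rw [le_div_iff₀ (by positivity), one_mul]
      have : δ ^ 10 ≤ 1 := pow_le_one₀ hδ0.le hδ1
      have h2 : (1 : ℝ) ≤ ((10 : ℕ).factorial : ℝ) := by
        exact_mod_cast Nat.factorial_pos 10
      linarith
    have e2 : 1 ≤ Ch * Cx := one_le_mul_of_one_le_of_one_le hCh hCx1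
    have e3 : 1 ≤ 6 * Ch * Cx * (142 * 8 ^ 8 * 7) := by
      have : 6 * Ch * Cx * (142 * 8 ^ 8 * 7) = (Ch * Cx) * (6 * (142 * 8 ^ 8 * 7)) := by ring
      rw [this]
      have : (1 : ℝ) ≤ 6 * (142 * 8 ^ 8 * 7) := by norm_num
      exact one_le_mul_of_one_le_of_one_le e2 this
    rw [hCf]
    exact one_le_mul_of_one_le_of_one_le e3 e1
  refine ⟨Cf, hCf1, ?_⟩
  intro W hΔ hirr B hB hBs R hR
  obtain ⟨hR1, hc1, hcR, hLDe⟩ := hapr W hΔ hirr R hR
  have hcondR : (1 : ℝ) ≤ (cond W : ℝ) := by exact_mod_cast hc1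
  have hDne : W.Δ.natAbs ≠ 0 := Int.natAbs_ne_zero.2 hΔ
  have habs : Real.log |(W.Δ : ℝ)| = Real.log (W.Δ.natAbs : ℝ) := by
    rw [Nat.cast_natAbs, Int.cast_abs]
  -- the primes
  obtain ⟨x, hx⟩ : ∃ x : ℝ, x = Real.exp (δ * R) := ⟨_, rfl⟩
  have hx1 : 1 ≤ x := by
    rw [hx]
    exact Real.one_le_exp (by positivity)
  obtain ⟨s, hs⟩ : ∃ s : Finset ℕ, s = W.Δ.natAbs.primeFactors.filter
    (fun p : ℕ => ¬ (p : ℤ) ∣ W.c₄ ∧ x ≤ (W.Δ.natAbs.factorization p : ℝ)) := ⟨_, rfl⟩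
  have hspf : s ⊆ W.Δ.natAbs.primeFactors := by
    rw [hs]
    exact Finset.filter_subset _ _
  have hsp : ∀ p ∈ s, p.Prime ∧ (p : ℤ) ∣ W.Δ ∧ ¬ (p : ℤ) ∣ W.c₄ := by
    intro p hp
    refine ⟨Nat.prime_of_mem_primeFactors (hspf hp),
      Int.natCast_dvd.2 (Nat.dvd_of_mem_primeFactors (hspf hp)), ?_⟩
    rw [hs, Finset.mem_filter] at hp
    exact hp.2.1
  have hsumR := fi3_sub W hΔ s hspf R hR
  have hsmall := fi3_small W hΔ x hx1 s hs R hR
  -- the field
  obtain ⟨f1, f2, K, iK, iN, β, κ, σ, hCF, hσ, hdisc⟩ := hFLW W hΔ hirr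
  obtain ⟨pp, hppinj, hpps, hpsum⟩ := fi3_enum s
  obtain ⟨P, 𝔞, hCD⟩ := hCU2 K β W.b₂ (8 * W.b₄) (16 * W.b₆) κ hCF s.card pp hppinj
    (fun j => (hsp _ (hpps j)).1) (fun j => by
      rw [f1]
      exact Dvd.dvd.mul_left (hsp _ (hpps j)).2.1 _)
    (fun j => by
      rw [f2]
      exact (hsp _ (hpps j)).2.2)
  have hdne : NumberField.discr K ≠ 0 := NumberField.discr_ne_zero K
  have hd1 : (1 : ℝ) ≤ |(NumberField.discr K : ℝ)| := by
    have := Int.one_le_abs hdne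
    exact_mod_cast this
  obtain ⟨n1, n2, n3, _⟩ := szf_nu R (cond W) |(NumberField.discr K : ℝ)| hR1 hcondR
    hcR hd1 hdisc
  obtain ⟨sc, hsc⟩ : ∃ sc : ℝ, sc = Real.sqrt (cond W : ℝ) := ⟨_, rfl⟩
  rw [← hsc] at n2 n3 ⊢
  have hsc1 : 1 ≤ sc := by
    rw [hsc, ← Real.sqrt_one]
    exact Real.sqrt_le_sqrt hcondR
  obtain ⟨ν, hν⟩ : ∃ ν : ℝ, ν = 142 * sc * (8 * R) ^ 8 := ⟨_, rfl⟩
  rw [← hν] at n2 n3
  have hdlog : Real.log |(NumberField.discr K : ℝ)| ≤ C0 * R := by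
    have h1 : Real.log |(NumberField.discr K : ℝ)| ≤ 11 * R := by
      rw [Real.log_le_iff_le_exp (by linarith)]
      exact n1
    refine h1.trans (mul_le_mul_of_nonneg_right ?_ (by linarith))
    rw [hC0]
    linarith
  have hIDle : ((BK.ID K (2 * Real.sqrt |(NumberField.discr K : ℝ)|)).ncard : ℝ) ≤ ν := by
    refine (hIDC K hCF.deg _ ?_).trans n2
    have : 1 ≤ Real.sqrt |(NumberField.discr K : ℝ)| := by
      rw [← Real.sqrt_one]
      exact Real.sqrt_le_sqrt hd1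
    linarith
  -- the valuations
  obtain ⟨V, hV⟩ : ∃ V : Fin s.card → ℝ, ∀ j, V j =
    ((dis W.b₂ (8 * W.b₄) (16 * W.b₆)).natAbs.factorization (pp j) : ℝ) * Real.log (pp j) :=
      ⟨_, fun _ => rfl⟩
  have hlpp : ∀ j, 0 ≤ Real.log (pp j) := fun j => szf_nonneg _ s hspf _ (hpps j)
  have hV0 : ∀ j, 0 ≤ V j := fun j => by
    rw [hV]
    exact mul_nonneg (Nat.cast_nonneg _) (hlpp j)
  -- the norm of 𝔞
  have hna1 : Ideal.absNorm 𝔞 ≠ 0 := by
    intro h8
    have h6 := hCD.na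
    rw [h8, zero_mul, f1] at h6
    have : (256 * W.Δ).natAbs ≠ 0 := Int.natAbs_ne_zero.2 (by omega)
    exact this h6.symm
  have hnaV : Real.log (Ideal.absNorm 𝔞 : ℝ) + ∑ j, V j =
      Real.log 256 + Real.log |(W.Δ : ℝ)| := by
    have h6 := hCD.na
    have h8 : ((Ideal.absNorm 𝔞 *
        ∏ j, pp j ^ ((dis W.b₂ (8 * W.b₄) (16 * W.b₆)).natAbs.factorization (pp j)) : ℕ) : ℝ) =
        256 * (W.Δ.natAbs : ℝ) := by
      rw [h6, f1, Int.natAbs_mul]
      push_cast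
      norm_num
    have h9 : ∀ j, (pp j : ℝ) ≠ 0 := fun j => by
      have := (hsp _ (hpps j)).1.pos
      positivity
    have h10 := congrArg Real.log h8
    rw [Nat.cast_mul, Nat.cast_prod, Real.log_mul (by exact_mod_cast hna1)
      (Finset.prod_ne_zero_iff.2 fun j _ => by rw [Nat.cast_pow]; exact pow_ne_zero _ (h9 j)),
      Real.log_prod (fun j _ => by rw [Nat.cast_pow]; exact pow_ne_zero _ (h9 j)),
      Real.log_mul (by norm_num) (by exact_mod_cast hDne)] at h10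
    rw [habs, ← h10]
    congr 1
    exact Finset.sum_congr rfl fun j _ => by rw [hV, Nat.cast_pow, Real.log_pow]
  have h256 := szf_log256
  have h2560 : 0 ≤ Real.log 256 := Real.log_nonneg (by norm_num)
  obtain ⟨A, hA⟩ : ∃ A : ℝ, A = 7 * R * Real.exp (δ * R) := ⟨_, rfl⟩
  have hA1 : 1 ≤ A := by
    rw [hA, ← hx]
    have : 1 ≤ R * x := one_le_mul_of_one_le_of_one_le hR1 hx1
    linarith
  have hnalog : Real.log (Ideal.absNorm 𝔞 : ℝ) ≤ A := by
    have h8 : ∑ p ∈ s, (W.Δ.natAbs.factorization p : ℝ) * Real.log p ≤ ∑ j, V j := by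
      rw [← hpsum (fun p => (W.Δ.natAbs.factorization p : ℝ) * Real.log p)]
      refine Finset.sum_le_sum fun j _ => ?_
      rw [hV, f1]
      refine mul_le_mul_of_nonneg_right ?_ (hlpp j)
      obtain ⟨r, hr⟩ := szf_fac W.Δ hΔ (pp j)
      rw [hr]
      push_cast
      have : (0 : ℝ) ≤ r := Nat.cast_nonneg _
      linarith
    have h9 : Real.log |(W.Δ : ℝ)| =
        ∑ p ∈ W.Δ.natAbs.primeFactors \ s, (W.Δ.natAbs.factorization p : ℝ) * Real.log p +
        ∑ p ∈ s, (W.Δ.natAbs.factorization p : ℝ) * Real.log p := by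
      rw [habs, szf_log _ hDne, ← Finset.sum_sdiff hspf]
    have h10 : 1 ≤ R * x := one_le_mul_of_one_le_of_one_le hR1 hx1
    rw [hA, ← hx]
    have h11 : x * R = R * x := mul_comm _ _
    linarith
  have hlogA : Real.log A ≤ C0 * R := by
    have h1 : A ≤ Real.exp (11 * R) := by
      have e1 : (7 : ℝ) ≤ Real.exp 9 := by
        have := Real.add_one_le_exp (9 : ℝ)
        linarith
      have e2 : R ≤ Real.exp R := by
        have := Real.add_one_le_exp R
        linarith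
      calc A = 7 * R * Real.exp (δ * R) := hA
        _ ≤ Real.exp 9 * Real.exp R * Real.exp R :=
            mul_le_mul (mul_le_mul e1 e2 (by linarith) (Real.exp_pos _).le)
              (Real.exp_le_exp.2 (by nlinarith)) (Real.exp_pos _).le (by positivity)
        _ = Real.exp (9 + R + R) := by rw [← Real.exp_add, ← Real.exp_add]
        _ ≤ Real.exp (11 * R) := Real.exp_le_exp.2 (by linarith)
    have h2 : Real.log A ≤ 11 * R := by
      rw [Real.log_le_iff_le_exp (by linarith)]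
      exact h1
    refine h2.trans (mul_le_mul_of_nonneg_right ?_ (by linarith))
    rw [hC0]
    linarith
  -- the sizes
  obtain ⟨LD, hLD'⟩ : ∃ LD : ℝ, LD = Real.log |(W.Δ : ℝ)| := ⟨_, rfl⟩
  have hLD0 : 0 ≤ LD := by
    rw [hLD', habs]
    exact Real.log_nonneg (by exact_mod_cast Nat.pos_of_ne_zero hDne)
  rw [← hLD'] at hLDe hnaV ⊢
  obtain ⟨H, hH⟩ : ∃ H : ℝ, H = C3 * sc * (1 + LD) ^ 19 := ⟨_, rfl⟩
  have hLD19 : 1 + LD ≤ (1 + LD) ^ 19 := le_self_pow₀ (by linarith) (by norm_num)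
  have hH1 : 1 + LD ≤ H := by
    have h1 : 1 ≤ C3 * sc := one_le_mul_of_one_le_of_one_le hC3 hsc1
    have h2 : 0 ≤ (1 + LD) ^ 19 := by positivity
    rw [hH]
    nlinarith
  obtain ⟨Sb, hSb⟩ : ∃ Sb : ℝ, Sb = 10 * C2 * H := ⟨_, rfl⟩
  have hSb10 : 10 * H ≤ Sb := by
    rw [hSb]
    nlinarith
  have hlog256Δ : Real.log |((256 * W.Δ : ℤ) : ℝ)| = Real.log 256 + LD := by
    have h1 : (W.Δ : ℝ) ≠ 0 := by exact_mod_cast hΔ
    rw [Int.cast_mul, abs_mul, Real.log_mul (by norm_num) (abs_ne_zero.2 h1), hLD']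
    have h2 : |((256 : ℤ) : ℝ)| = 256 := by norm_num
    rw [h2]
  have hc4 : Real.log (1 + |(W.c₄ : ℝ)|) ≤ 1 + H := by
    by_cases h0 : W.c₄ = 0
    · rw [h0]
      simp only [Int.cast_zero, abs_zero, add_zero, Real.log_one]
      linarith
    · have h1 : (1 : ℝ) ≤ |(W.c₄ : ℝ)| := by
        have := Int.one_le_abs h0
        exact_mod_cast this
      have h2 := hhpl W hΔ
      rw [← hsc, ← hLD', ← hH] at h2
      have h3 : Real.log (1 + |(W.c₄ : ℝ)|) ≤ Real.log (2 * |(W.c₄ : ℝ)|) :=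
        Real.log_le_log (by linarith) (by linarith)
      rw [Real.log_mul (by norm_num) (by linarith)] at h3
      have := Real.log_two_lt_d9
      linarith
  have hσS : ∀ i, |Real.log ‖σ i (κ : K)‖| ≤ Sb := by
    intro i
    have h1 := hsiz K β W.b₂ (8 * W.b₄) (16 * W.b₆) κ hCF σ hσ i
    rw [f1, f2] at h1
    refine h1.trans ?_
    have h2 : 1 + Real.log (1 + |(W.c₄ : ℝ)|) + Real.log |((256 * W.Δ : ℤ) : ℝ)| ≤ 10 * H := by
      linarith
    calc C2 * (1 + Real.log (1 + |(W.c₄ : ℝ)|) + Real.log |((256 * W.Δ : ℤ) : ℝ)|)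
        ≤ C2 * (10 * H) := mul_le_mul_of_nonneg_left h2 (by linarith)
      _ = Sb := by rw [hSb]; ring
  have hlna0 : 0 ≤ Real.log (Ideal.absNorm 𝔞 : ℝ) :=
    Real.log_nonneg (by exact_mod_cast Nat.pos_of_ne_zero hna1)
  have hvS : ∀ j, V j ≤ Sb := by
    intro j
    have h1 : V j ≤ ∑ j, V j :=
      Finset.single_le_sum (f := V) (fun i _ => hV0 i) (Finset.mem_univ j)
    linarith
  have hlogSb : Real.log Sb ≤ C0 * R := by
    have e1 : Sb = (10 * C2 * C3) * sc * (1 + LD) ^ 19 := by rw [hSb, hH]; ring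
    have e4 : Real.log (1 + LD) ≤ (c + 1) * R := by
      rw [Real.log_le_iff_le_exp (by linarith)]
      have g1 : (1 : ℝ) ≤ Real.exp (c * R) := Real.one_le_exp (by positivity)
      have g2 : (2 : ℝ) ≤ Real.exp R := by
        have := Real.add_one_le_exp R
        linarith
      calc 1 + LD ≤ 2 * Real.exp (c * R) := by linarith
        _ ≤ Real.exp R * Real.exp (c * R) :=
            mul_le_mul_of_nonneg_right g2 (Real.exp_pos _).le
        _ = Real.exp ((c + 1) * R) := by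
            rw [← Real.exp_add]
            congr 1
            ring
    have e5 : Real.log sc ≤ R := by
      rw [hsc, Real.log_sqrt (by linarith)]
      linarith
    rw [e1, Real.log_mul (by positivity) (by positivity),
      Real.log_mul (by positivity) (by positivity), Real.log_pow]
    have e2 := Real.log_le_sub_one_of_pos (show 0 < 10 * C2 * C3 by positivity)
    have e3 : 10 * C2 * C3 ≤ 10 * C2 * C3 * R :=
      le_mul_of_one_le_right (by positivity) hR1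
    have e6 : C0 * R = (4 * Ch + 11) * R + 10 * C2 * C3 * R + R + 19 * ((c + 1) * R) := by
      rw [hC0]
      ring
    have e7 : 0 ≤ (4 * Ch + 11) * R := by positivity
    rw [e6]
    push_cast
    linarith
  -- the maxima
  obtain ⟨i0, _, hi0⟩ := Finset.exists_max_image Finset.univ
    (fun i : Fin 3 => |Real.log ‖σ i (κ : K)‖|) ⟨0, Finset.mem_univ _⟩
  obtain ⟨S0, hS0⟩ : ∃ S0 : ℝ, S0 = |Real.log ‖σ i0 (κ : K)‖| := ⟨_, rfl⟩
  have hS00 : 0 ≤ S0 := by
    rw [hS0]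
    exact abs_nonneg _
  have hσS0 : ∀ i, |Real.log ‖σ i (κ : K)‖| ≤ S0 := fun i => by
    rw [hS0]
    exact hi0 i (Finset.mem_univ _)
  have hS0b : S0 ≤ Sb := by
    rw [hS0]
    exact hσS i0
  obtain ⟨M0, hM00, hVM, hMe⟩ := fi3_max V hV0
  have hM0b : M0 ≤ Sb := by
    rcases hMe with h | ⟨j0, h⟩
    · rw [h]
      linarith
    · rw [← h]
      exact hvS j0
  have hm2 : (s.card : ℝ) + 1 ≤ 2 * R := by
    have h1 := sf2_m W.Δ.natAbs s hspf
    linarith
  have hsumV : ∑ j, V j ≤ 2 * R * M0 := by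
    have h1 := Finset.sum_le_card_nsmul Finset.univ V M0 (fun j _ => hVM j)
    rw [nsmul_eq_mul, Finset.card_univ, Fintype.card_fin] at h1
    refine h1.trans (mul_le_mul_of_nonneg_right (by linarith) hM00)
  have hDle : Real.log |((256 * W.Δ : ℤ) : ℝ)| ≤ A + 2 * R * M0 := by
    rw [hlog256Δ]
    linarith
  have hpR : ∑ j, Real.log (pp j) ≤ R := by
    rw [hpsum (fun p => Real.log p)]
    linarith
  -- the bound
  obtain ⟨E, hE⟩ : ∃ E : ℝ, E = Real.exp (δ * R) := ⟨_, rfl⟩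
  have hE1 : 1 ≤ E := by
    rw [hE, ← hx]
    exact hx1
  obtain ⟨Y, hY⟩ : ∃ Y : ℝ, Y = ν * A * B * E := ⟨_, rfl⟩
  have hνA : 1 ≤ ν * A := one_le_mul_of_one_le_of_one_le n3 hA1
  have hAY : A ≤ Y := by
    have g1 : A ≤ ν * A := le_mul_of_one_le_left (by linarith) n3
    have g2 : ν * A ≤ ν * A * B := le_mul_of_one_le_right (by linarith) hB
    have g3 : ν * A * B ≤ ν * A * B * E := le_mul_of_one_le_right (by linarith) hE1
    rw [hY]
    linarith
  have hY0 : 0 ≤ Y := by linarith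
  have hP : 1 ≤ max S0 M0 → max S0 M0 ≤ 4 * Ch * R * M0 → M0 ≤ Cx * Y := by
    intro g1 g2
    rcases hMe with h | ⟨j0, h⟩
    · have g4 : 4 * Ch * R * M0 = 0 := by rw [h, mul_zero]
      linarith
    · have g3 := htpa s.card K β W.b₂ (8 * W.b₄) (16 * W.b₆) κ pp P 𝔞 hCD σ hσ R (max S0 M0) ν A
        hR1 hdlog hpR hA1 hnalog hlogA g1
        ((Real.log_le_log (by linarith) (max_le hS0b hM0b)).trans hlogSb)
        (fun i => (hσS0 i).trans (le_max_left _ _))
        (fun j => by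
          rw [← hV j]
          exact (hVM j).trans (le_max_right _ _)) hIDle n3 j0 (by
          rw [← hV j0, h]
          refine g2.trans (mul_le_mul_of_nonneg_right (mul_le_mul_of_nonneg_right ?_
            (by linarith)) hM00)
          rw [hC0]
          linarith)
      rw [← hV j0, h] at g3
      refine g3.trans ?_
      have h3 : (if Odd ((dis W.b₂ (8 * W.b₄) (16 * W.b₆)).natAbs.factorization (pp j0)) then 1
          else (pp j0 : ℝ)) ≤ B := by
        split_ifs with hodd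
        · exact hB
        · refine hBs _ (hspf (hpps j0)) (hsp _ (hpps j0)).2.2 ?_
          obtain ⟨r, hr⟩ := szf_fac W.Δ hΔ (pp j0)
          rw [f1, Nat.not_odd_iff_even, hr, Nat.even_add] at hodd
          exact hodd.1 (even_two_mul r)
      have h4 : CT * ν * A * (if Odd ((dis W.b₂ (8 * W.b₄) (16 * W.b₆)).natAbs.factorization
          (pp j0)) then 1 else (pp j0 : ℝ)) * Real.exp (δ * R) ≤ CT * ν * A * B * E := by
        rw [hE]
        refine mul_le_mul_of_nonneg_right (mul_le_mul_of_nonneg_left h3 ?_) (Real.exp_pos _).le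
        have : CT * ν * A = CT * (ν * A) := by ring
        rw [this]
        positivity
      refine h4.trans ?_
      have h5 : CT * ν * A * B * E = CT * Y := by
        rw [hY]
        ring
      rw [h5]
      exact mul_le_mul_of_nonneg_right (by linarith) hY0
  have hcase : S0 ≤ Ch * (1 + Real.log |((256 * W.Δ : ℤ) : ℝ)|) ∨
      (1 ≤ S0 → M0 ≤ S0 → S0 ≤ Cx * Y) := by
    have g1 := hhdi K β W.b₂ (8 * W.b₄) (16 * W.b₆) κ hCF σ hσ S0 hσS0 ⟨i0, hS0.symm⟩
    rw [f1] at g1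
    rcases g1 with g1 | ⟨σ', hσ', hσσ', hcfg, hne, hcl⟩
    · exact Or.inl g1
    · right
      intro g2 g3
      have g4 := htar s.card K β W.b₂ (8 * W.b₄) (16 * W.b₆) κ pp P 𝔞 hCD σ' hσ' hcfg R S0 ν A
        (S0 / 2) hR1 hdlog hpR hA1 hnalog hlogA g2
        ((Real.log_le_log (by linarith) hS0b).trans hlogSb)
        (fun i => by
          obtain ⟨j, hj⟩ := hσσ' i
          rw [hj]
          exact hσS0 j)
        (fun j => by
          rw [← hV j]
          exact (hVM j).trans g3) hIDle n3 hne (by linarith) hcl (by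
          have e1 : 2 ≤ C0 * R := by
            have : C0 ≤ C0 * R := le_mul_of_one_le_right (by linarith) hR1
            have h2 : 2 ≤ C0 := by
              rw [hC0]
              linarith
            linarith
          have e2 : C0 * R * (S0 / 2) = (C0 * R / 2) * S0 := by ring
          rw [e2]
          exact le_mul_of_one_le_left hS00 (by linarith))
      have g5 : S0 ≤ 2 * CA * (ν * A * Real.exp (δ * R)) := by
        have : CA * ν * A * Real.exp (δ * R) = CA * (ν * A * Real.exp (δ * R)) := by ring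
        rw [this] at g4
        linarith
      refine g5.trans ?_
      have g6 : ν * A * Real.exp (δ * R) ≤ Y := by
        rw [hY, ← hE]
        refine mul_le_mul_of_nonneg_right ?_ (by linarith)
        exact le_mul_of_one_le_right (by linarith) hB
      have g7 : 0 ≤ ν * A * Real.exp (δ * R) := by
        have := Real.exp_pos (δ * R)
        positivity
      exact mul_le_mul (by linarith) g6 g7 (by linarith)
  obtain ⟨r1, r2⟩ := fi3_cases R A Y Ch Cx M0 S0 _ hR1 hA1 hAY hCh hCx1 hM00 hS00 hDle hP hcase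
  have hend := fi3_end δ ε R Ch Cx sc B ν A E Y hδ0 hδε hR1 hCh hCx1 hsc1 hB hν hA hE hY
  rw [← hCf] at hend
  have hCY : 1 ≤ Cx * Y := one_le_mul_of_one_le_of_one_le hCx1 (by linarith)
  have hChR : 1 ≤ Ch * R := one_le_mul_of_one_le_of_one_le hCh hR1
  have hbig : 1 ≤ Ch * R * (Cx * Y) := one_le_mul_of_one_le_of_one_le hChR hCY
  constructor
  · refine le_trans ?_ hend
    have g1 : LD ≤ A + 2 * R * M0 := by linarith
    have g2 : R * M0 ≤ R * (Cx * Y) := mul_le_mul_of_nonneg_left r1 (by linarith)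
    have g3 : R * (Cx * Y) ≤ Ch * (R * (Cx * Y)) :=
      le_mul_of_one_le_left (by positivity) hCh
    have g4 : Y ≤ Cx * Y := le_mul_of_one_le_left hY0 hCx1
    have g5 : Cx * Y ≤ R * (Cx * Y) := le_mul_of_one_le_left (by linarith) hR1
    have g6 : 6 * Ch * R * (Cx * Y) = 6 * (Ch * (R * (Cx * Y))) := by ring
    rw [g6]
    linarith
  · refine le_trans ?_ hend
    have g1 := hC4L K β W.b₂ (8 * W.b₄) (16 * W.b₆) κ hCF σ hσ S0 hS00 hσS0
    rw [f2] at g1
    have g6 : 6 * Ch * R * (Cx * Y) = 4 * Ch * R * (Cx * Y) + 2 * (Ch * R * (Cx * Y)) := by ring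
    rw [g6]
    linarith

end Pool.Helper99.SZ
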