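import Pool.Agent.Helper99.SZ.Stmts2

set_option autoImplicit false

/-! Calculus: the final inequality. -/

namespace Pool.Helper99.SZ

theorem st_CL2 : ST_CL2 := by
  intro c hc
  have hc1 : (1 : ℝ) ≤ c := by exact_mod_cast hc
  refine ⟨2 * ((2 + c + c ^ 2 + c ^ 3) + 2 * c ^ 4), ?_, ?_⟩
  · have h2 : (0 : ℝ) ≤ (c : ℝ) ^ 2 := by positivity
    have h3 : (0 : ℝ) ≤ (c : ℝ) ^ 3 := by positivity
    have h4 : (0 : ℝ) ≤ (c : ℝ) ^ 4 := by positivity
    linarith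
  intro m t R hR hm ht hle
  obtain ⟨l, hl⟩ : ∃ l, l = Real.log (1 + t) := ⟨_, rfl⟩
  rw [← hl] at hle ⊢
  have hl0 : 0 ≤ l := by
    rw [hl]
    exact Real.log_nonneg (by linarith)
  obtain ⟨y, hy⟩ : ∃ y, y = R + l := ⟨_, rfl⟩
  rw [← hy] at hle
  have hy1 : 1 ≤ y := by linarith
  have hcR : 1 ≤ (c : ℝ) * R := by nlinarith
  have hB : 1 ≤ (c : ℝ) * R * y := by nlinarith
  have hpow : 1 ≤ ((c : ℝ) * R * y) ^ (c * (m + 1)) := one_le_pow₀ hB
  have hexp : 1 ≤ Real.exp (c * R) := Real.one_le_exp (by linarith)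
  have h1 : 1 + t ≤ Real.exp (1 + c * R) * ((c : ℝ) * R * y) ^ (c * (m + 1)) := by
    have e1 : (2 : ℝ) ≤ Real.exp 1 := by
      have := Real.add_one_le_exp (1 : ℝ)
      linarith
    have e2 : 1 ≤ Real.exp (c * R) * ((c : ℝ) * R * y) ^ (c * (m + 1)) := by nlinarith
    rw [Real.exp_add, mul_assoc]
    nlinarith
  have h2 : l ≤ 1 + c * R + (c * (m + 1) : ℕ) * Real.log ((c : ℝ) * R * y) := by
    rw [hl]
    have := Real.log_le_log (by linarith) h1
    rw [Real.log_mul (Real.exp_pos _).ne' (by positivity), Real.log_exp, Real.log_pow] at this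
    exact this
  have hlogB : 0 ≤ Real.log ((c : ℝ) * R * y) := Real.log_nonneg hB
  have h3 : ((c * (m + 1) : ℕ) : ℝ) ≤ c ^ 2 * R := by
    push_cast
    nlinarith
  have h4 : Real.log ((c : ℝ) * R * y) ≤ c + R + 2 * Real.sqrt y := by
    rw [Real.log_mul (by positivity) (by positivity), Real.log_mul (by positivity) (by positivity)]
    have e1 : Real.log c ≤ c := by
      have := Real.log_le_sub_one_of_pos (show (0 : ℝ) < c by linarith)
      linarith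
    have e2 : Real.log R ≤ R := by
      have := Real.log_le_sub_one_of_pos (show (0 : ℝ) < R by linarith)
      linarith
    have e3 : Real.log y ≤ 2 * Real.sqrt y := by
      have f1 : 0 < Real.sqrt y := Real.sqrt_pos.2 (by linarith)
      have f2 := Real.log_le_sub_one_of_pos f1
      rw [Real.log_sqrt (by linarith)] at f2
      linarith
    linarith
  obtain ⟨s, hs⟩ : ∃ s, s = Real.sqrt y := ⟨_, rfl⟩
  have hs0 : 0 ≤ s := by rw [hs]; exact Real.sqrt_nonneg y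
  have hs2 : s ^ 2 = y := by rw [hs]; exact Real.sq_sqrt (by linarith)
  rw [← hs] at h4
  have h5 : (c * (m + 1) : ℕ) * Real.log ((c : ℝ) * R * y) ≤ c ^ 2 * R * (c + R + 2 * s) :=
    mul_le_mul h3 h4 hlogB (by positivity)
  have h6 : y ≤ R + 1 + c * R + c ^ 2 * R * (c + R + 2 * s) := by linarith
  have hR2 : R ≤ R ^ 2 := by nlinarith
  have h12 : (1 : ℝ) ≤ R ^ 2 := by nlinarith
  have g1 : (c : ℝ) * R ≤ c * R ^ 2 := mul_le_mul_of_nonneg_left hR2 (by linarith)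
  have g2 : (c : ℝ) ^ 3 * R ≤ c ^ 3 * R ^ 2 := mul_le_mul_of_nonneg_left hR2 (by positivity)
  have g3 : 2 * (c : ℝ) ^ 2 * R * s ≤ 2 * c ^ 4 * R ^ 2 + s ^ 2 / 2 := by
    nlinarith [sq_nonneg (2 * (c : ℝ) ^ 2 * R - s)]
  have g4 : (c : ℝ) ^ 2 * R * (c + R + 2 * s) = c ^ 3 * R + c ^ 2 * R ^ 2 + 2 * c ^ 2 * R * s := by
    ring
  have g5 : y ≤ 2 * ((2 + c + c ^ 2 + c ^ 3) + 2 * c ^ 4) * R ^ 2 := by
    have : y ≤ 2 * R ^ 2 + c * R ^ 2 + c ^ 3 * R ^ 2 + c ^ 2 * R ^ 2 + (2 * c ^ 4 * R ^ 2 + y / 2) := by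
      rw [hs2] at g3
      linarith
    linarith
  linarith

end Pool.Helper99.SZ
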