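import Pool.Agent.Helper99.SZ.Stmts

set_option autoImplicit false

/-! MP_bde085_nt: elementary properties of the size. -/

namespace Pool.Helper99.SZ

open NumberField

theorem gel1_ne {K : Type} [Field K] [NumberField K] {κ : 𝓞 K} (hκ : κ ≠ 0) {n : ℕ}
    (s : Fin n → Kˣ) (a : ℤ × (Fin n → ℤ)) : gelS κ s a ≠ 0 := by
  unfold gelS
  have h : (κ : K) ≠ 0 := fun h => hκ (RingOfIntegers.coe_injective (by rw [map_zero]; exact h))
  exact mul_ne_zero (zpow_ne_zero _ h) (Finset.prod_ne_zero_iff.2 fun i _ =>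
    zpow_ne_zero _ (s i).ne_zero)

theorem gel1_add {K : Type} [Field K] [NumberField K] {κ : 𝓞 K} (hκ : κ ≠ 0) {n : ℕ}
    (s : Fin n → Kˣ) (a b : ℤ × (Fin n → ℤ)) :
    gelS κ s (a + b) = gelS κ s a * gelS κ s b := by
  unfold gelS
  have h : (κ : K) ≠ 0 := fun h => hκ (RingOfIntegers.coe_injective (by rw [map_zero]; exact h))
  have h1 : ∏ i, ((s i : Kˣ) : K) ^ ((a + b).2 i) =
      (∏ i, ((s i : Kˣ) : K) ^ (a.2 i)) * ∏ i, ((s i : Kˣ) : K) ^ (b.2 i) := by
    rw [← Finset.prod_mul_distrib]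
    apply Finset.prod_congr rfl
    intro i _
    rw [Prod.snd_add, Pi.add_apply, zpow_add₀ (s i).ne_zero]
  rw [h1, Prod.fst_add, zpow_add₀ h]
  ring

theorem gel1_smul {K : Type} [Field K] [NumberField K] {κ : 𝓞 K} {n : ℕ}
    (s : Fin n → Kˣ) (k : ℤ) (a : ℤ × (Fin n → ℤ)) :
    gelS κ s (k • a) = gelS κ s a ^ k := by
  unfold gelS
  rw [mul_zpow, ← zpow_mul, ← Finset.prod_zpow]
  congr 1
  · rw [Prod.smul_fst, smul_eq_mul, mul_comm]
  · apply Finset.prod_congr rfl
    intro i _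
    rw [← zpow_mul, Prod.smul_snd, Pi.smul_apply, smul_eq_mul, mul_comm]

theorem st_GEL1 : ST_GEL1 := by
  intro K _ _ κ hκ m n s
  refine ⟨gel1_ne hκ s, gel1_add hκ s, gel1_smul s, ?_⟩
  intro σ P _ nn α A hA
  refine ⟨?_, ?_, ?_⟩
  · intro a
    unfold nrmS
    have h1 : 0 ≤ ∑ i, |Real.log ‖σ i (gelS κ s a)‖| := Finset.sum_nonneg fun _ _ => abs_nonneg _
    have h2 : 0 ≤ A * |(a.1 : ℝ)| := mul_nonneg hA (abs_nonneg _)
    have h3 : 0 ≤ ∑ j, |((a.1 * nn j + ∑ i, a.2 i * α i j : ℤ) : ℝ)| *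
        Real.log (Ideal.absNorm (P j)) :=
      Finset.sum_nonneg fun _ _ => mul_nonneg (abs_nonneg _) (Real.log_natCast_nonneg _)
    nlinarith
  · intro a b
    unfold nrmS
    have h1 : ∑ i, |Real.log ‖σ i (gelS κ s (a + b))‖| ≤
        ∑ i, |Real.log ‖σ i (gelS κ s a)‖| + ∑ i, |Real.log ‖σ i (gelS κ s b)‖| := by
      rw [← Finset.sum_add_distrib]
      apply Finset.sum_le_sum
      intro i _
      rw [gel1_add hκ, map_mul, norm_mul, Real.log_mul]
      · exact abs_add_le _ _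
      · exact norm_ne_zero_iff.2 ((map_ne_zero _).2 (gel1_ne hκ s a))
      · exact norm_ne_zero_iff.2 ((map_ne_zero _).2 (gel1_ne hκ s b))
    have h2 : A * |((a + b).1 : ℝ)| ≤ A * |(a.1 : ℝ)| + A * |(b.1 : ℝ)| := by
      rw [← mul_add, Prod.fst_add]
      push_cast
      exact mul_le_mul_of_nonneg_left (abs_add_le _ _) hA
    have h3 : ∑ j, |(((a + b).1 * nn j + ∑ i, (a + b).2 i * α i j : ℤ) : ℝ)| *
        Real.log (Ideal.absNorm (P j)) ≤
        ∑ j, |((a.1 * nn j + ∑ i, a.2 i * α i j : ℤ) : ℝ)| * Real.log (Ideal.absNorm (P j)) +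
        ∑ j, |((b.1 * nn j + ∑ i, b.2 i * α i j : ℤ) : ℝ)| *
          Real.log (Ideal.absNorm (P j)) := by
      rw [← Finset.sum_add_distrib]
      apply Finset.sum_le_sum
      intro j _
      rw [← add_mul]
      apply mul_le_mul_of_nonneg_right _ (Real.log_natCast_nonneg _)
      have h4 : (a + b).1 * nn j + ∑ i, (a + b).2 i * α i j =
          (a.1 * nn j + ∑ i, a.2 i * α i j) + (b.1 * nn j + ∑ i, b.2 i * α i j) := by
        rw [Prod.fst_add, Prod.snd_add]
        simp only [Pi.add_apply, add_mul, Finset.sum_add_distrib]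
        ring
      rw [h4]
      push_cast
      exact abs_add_le _ _
    linarith
  · intro k a
    unfold nrmS
    have h1 : ∑ i, |Real.log ‖σ i (gelS κ s (k • a))‖| =
        |(k : ℝ)| * ∑ i, |Real.log ‖σ i (gelS κ s a)‖| := by
      rw [Finset.mul_sum]
      apply Finset.sum_congr rfl
      intro i _
      rw [gel1_smul, map_zpow₀, norm_zpow, Real.log_zpow, abs_mul]
    have h2 : |((k • a).1 : ℝ)| = |(k : ℝ)| * |(a.1 : ℝ)| := by
      rw [Prod.smul_fst, smul_eq_mul]
      push_cast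
      exact abs_mul _ _
    have h3 : ∑ j, |(((k • a).1 * nn j + ∑ i, (k • a).2 i * α i j : ℤ) : ℝ)| *
        Real.log (Ideal.absNorm (P j)) =
        |(k : ℝ)| * ∑ j, |((a.1 * nn j + ∑ i, a.2 i * α i j : ℤ) : ℝ)| *
          Real.log (Ideal.absNorm (P j)) := by
      rw [Finset.mul_sum]
      apply Finset.sum_congr rfl
      intro j _
      have h4 : (k • a).1 * nn j + ∑ i, (k • a).2 i * α i j =
          k * (a.1 * nn j + ∑ i, a.2 i * α i j) := by
        rw [Prod.smul_fst, Prod.smul_snd, mul_add, Finset.mul_sum]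
        simp only [Pi.smul_apply, smul_eq_mul]
        congr 1
        · ring
        · apply Finset.sum_congr rfl
          intro i _
          ring
      rw [h4, ← mul_assoc, ← abs_mul]
      push_cast
      rfl
    rw [h1, h2, h3]
    ring

end Pool.Helper99.SZ
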