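import Pool.Agent.Helper99.SZ.Stmts

set_option autoImplicit false

/-! MP_bde085_nt: the recursion step of the theorem on `P`-adic linear forms. -/

namespace Pool.Helper99.SZ

open NumberField

/-- the numerical inequality: the first case -/
theorem prs_num1 {c v A0 T K r : ℕ} {C0 KZ U ℓ lp : ℝ} (hc : 1 ≤ c) (hC0 : 1 ≤ C0)
    (hKZ : 1 ≤ KZ) (hU : 1 ≤ U) (hℓ : 1 ≤ ℓ) (hlp : 0 ≤ lp) (hlp' : lp ≤ ℓ)
    (hr : (r : ℝ) ≤ 2 * c * ℓ) (hK : (K : ℝ) ≤ 2 * c * U * (2 * c * ℓ) ^ v)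
    (hT : T ≤ K * r) :
    (T : ℝ) * lp ≤ C0 * KZ * 100 * (2 * c : ℝ) ^ ((v + 2) ^ 2) * (v + 2) * U *
      ℓ ^ (A0 + (v + 2) ^ 2) := by
  have hc' : (1 : ℝ) ≤ c := by exact_mod_cast hc
  have ha : (1 : ℝ) ≤ 2 * c := by linarith
  have hv : (1 : ℝ) ≤ (v : ℝ) + 2 := by
    have : (0 : ℝ) ≤ v := Nat.cast_nonneg v
    linarith
  have h1 : (T : ℝ) ≤ K * r := by exact_mod_cast hT
  have h2 : (T : ℝ) * lp ≤ (2 * c * U * (2 * c * ℓ) ^ v) * (2 * c * ℓ) * ℓ := by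
    have : (T : ℝ) ≤ (2 * c * U * (2 * c * ℓ) ^ v) * (2 * c * ℓ) :=
      h1.trans (mul_le_mul hK hr (Nat.cast_nonneg r) (by positivity))
    exact mul_le_mul this hlp' hlp (by positivity)
  have h3 : (2 * c * U * (2 * c * ℓ) ^ v) * (2 * c * ℓ) * ℓ =
      (2 * c : ℝ) ^ (v + 2) * U * ℓ ^ (v + 2) := by
    rw [mul_pow]
    ring
  rw [h3] at h2
  have hexp : v + 2 ≤ (v + 2) ^ 2 := by nlinarith
  have h4 : (2 * c : ℝ) ^ (v + 2) ≤ (2 * c : ℝ) ^ ((v + 2) ^ 2) := pow_le_pow_right₀ ha hexp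
  have h5 : ℓ ^ (v + 2) ≤ ℓ ^ (A0 + (v + 2) ^ 2) := pow_le_pow_right₀ hℓ (by omega)
  have h6 : 1 ≤ C0 * KZ * 100 * ((v : ℝ) + 2) := by
    have e1 : 1 ≤ C0 * KZ := one_le_mul_of_one_le_of_one_le hC0 hKZ
    have e2 : 1 ≤ C0 * KZ * 100 := by linarith
    exact one_le_mul_of_one_le_of_one_le e2 hv
  calc (T : ℝ) * lp ≤ (2 * c : ℝ) ^ (v + 2) * U * ℓ ^ (v + 2) := h2
    _ ≤ (2 * c : ℝ) ^ ((v + 2) ^ 2) * U * ℓ ^ (A0 + (v + 2) ^ 2) := by gcongr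
    _ ≤ (C0 * KZ * 100 * ((v : ℝ) + 2)) *
        ((2 * c : ℝ) ^ ((v + 2) ^ 2) * U * ℓ ^ (A0 + (v + 2) ^ 2)) :=
        le_mul_of_one_le_left (by positivity) h6
    _ = _ := by ring

/-- the numerical inequality: full dimension -/
theorem prs_num2 {c v A0 r : ℕ} {C0 KZ U ℓ N : ℝ} (hc : 1 ≤ c) (hC0 : 1 ≤ C0) (hv : 1 ≤ v)
    (hKZ : 1 ≤ KZ) (hU : 1 ≤ U) (hℓ : 1 ≤ ℓ) (hr : (r : ℝ) ≤ 2 * c * ℓ)
    (h1 : C0 * KZ * 100 * (2 * c : ℝ) ^ ((v + 2) ^ 2) * (v + 2) * U ^ v *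
      ℓ ^ (A0 + (v + 2) ^ 2) ≤ N) (h2 : N ≤ KZ * (4 * (r : ℝ) ^ v) * (2 * U + 1)) : False := by
  have hc' : (1 : ℝ) ≤ c := by exact_mod_cast hc
  have ha : (1 : ℝ) ≤ 2 * c := by linarith
  have hv' : (1 : ℝ) ≤ (v : ℝ) + 2 := by
    have : (0 : ℝ) ≤ v := Nat.cast_nonneg v
    linarith
  have h3 : (r : ℝ) ^ v ≤ (2 * c * ℓ) ^ v := pow_le_pow_left₀ (Nat.cast_nonneg r) hr v
  have h4 : N ≤ KZ * (4 * (2 * c * ℓ) ^ v) * (3 * U) := by
    refine h2.trans ?_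
    have : 2 * U + 1 ≤ 3 * U := by linarith
    gcongr
  have hexp : v ≤ (v + 2) ^ 2 := by nlinarith
  have h5 : (2 * c : ℝ) ^ v ≤ (2 * c : ℝ) ^ ((v + 2) ^ 2) := pow_le_pow_right₀ ha hexp
  have h6 : ℓ ^ v ≤ ℓ ^ (A0 + (v + 2) ^ 2) := pow_le_pow_right₀ hℓ (by omega)
  have h7 : U ≤ U ^ v := le_self_pow₀ hU (by omega)
  have h8 : N ≤ 12 * (KZ * (2 * c : ℝ) ^ ((v + 2) ^ 2) * U ^ v * ℓ ^ (A0 + (v + 2) ^ 2)) := by
    calc N ≤ KZ * (4 * (2 * c * ℓ) ^ v) * (3 * U) := h4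
      _ = 12 * (KZ * (2 * c : ℝ) ^ v * U * ℓ ^ v) := by
        rw [mul_pow]
        ring
      _ ≤ _ := by gcongr
  have hpos : 1 ≤ KZ * (2 * c : ℝ) ^ ((v + 2) ^ 2) * U ^ v * ℓ ^ (A0 + (v + 2) ^ 2) := by
    have e1 : 1 ≤ (2 * c : ℝ) ^ ((v + 2) ^ 2) := one_le_pow₀ ha
    have e2 : 1 ≤ U ^ v := one_le_pow₀ hU
    have e3 : 1 ≤ ℓ ^ (A0 + (v + 2) ^ 2) := one_le_pow₀ hℓ
    exact one_le_mul_of_one_le_of_one_le (one_le_mul_of_one_le_of_one_le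
      (one_le_mul_of_one_le_of_one_le hKZ e1) e2) e3
  have h9 : 100 * (KZ * (2 * c : ℝ) ^ ((v + 2) ^ 2) * U ^ v * ℓ ^ (A0 + (v + 2) ^ 2)) ≤ N := by
    refine le_trans ?_ h1
    have e1 : 1 ≤ C0 * ((v : ℝ) + 2) := one_le_mul_of_one_le_of_one_le hC0 hv'
    calc 100 * (KZ * (2 * c : ℝ) ^ ((v + 2) ^ 2) * U ^ v * ℓ ^ (A0 + (v + 2) ^ 2)) ≤
        (C0 * ((v : ℝ) + 2)) *
          (100 * (KZ * (2 * c : ℝ) ^ ((v + 2) ^ 2) * U ^ v * ℓ ^ (A0 + (v + 2) ^ 2))) :=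
          le_mul_of_one_le_left (by positivity) e1
      _ = _ := by ring
  linarith

/-- the numerical inequality: smaller dimension -/
theorem prs_num3 {c v w A0 Aw r K : ℕ} {C0 Cw KZ U ℓ N N1 : ℝ} (hc : 1 ≤ c) (hCw : 1 ≤ Cw)
    (hC0 : Cw ≤ C0) (hA : Aw ≤ A0) (hw : w < v) (hK0 : 1 ≤ K) (hr0 : 1 ≤ r)
    (hKZ : 1 ≤ KZ) (hU : 1 ≤ U) (hℓ : 1 ≤ ℓ) (hr : (r : ℝ) ≤ 2 * c * ℓ)
    (hK : (K : ℝ) ≤ 2 * c * U * (2 * c * ℓ) ^ v)
    (h1 : C0 * KZ * 100 * (2 * c : ℝ) ^ ((v + 2) ^ 2) * (v + 2) * U ^ v *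
      ℓ ^ (A0 + (v + 2) ^ 2) ≤ N) (h2 : N ≤ KZ * ((K : ℝ) ^ (v - w) * (4 * (r : ℝ) ^ v)) * N1) :
    Cw * U ^ w * ℓ ^ Aw ≤ N1 := by
  have hc' : (1 : ℝ) ≤ c := by exact_mod_cast hc
  have ha : (1 : ℝ) ≤ 2 * c := by linarith
  have hv' : (1 : ℝ) ≤ (v : ℝ) + 2 := by
    have : (0 : ℝ) ≤ v := Nat.cast_nonneg v
    linarith
  have hC0' : 1 ≤ C0 := hCw.trans hC0
  have hKpos : (0 : ℝ) < K := by exact_mod_cast hK0
  have hrpos : (0 : ℝ) < r := by exact_mod_cast hr0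
  have hP : (0 : ℝ) < KZ * ((K : ℝ) ^ (v - w) * (4 * (r : ℝ) ^ v)) := by positivity
  have key : KZ * ((K : ℝ) ^ (v - w) * (4 * (r : ℝ) ^ v)) * (Cw * U ^ w * ℓ ^ Aw) ≤
      KZ * ((K : ℝ) ^ (v - w) * (4 * (r : ℝ) ^ v)) * N1 := by
    refine le_trans ?_ (h1.trans h2)
    obtain ⟨d, rfl⟩ : ∃ d, v = w + d := ⟨v - w, by omega⟩
    have hd : w + d - w = d := by omega
    rw [hd]
    have h3 : (r : ℝ) ^ (w + d) ≤ (2 * c * ℓ) ^ (w + d) :=
      pow_le_pow_left₀ hrpos.le hr _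
    have h4 : (K : ℝ) ^ d ≤ (2 * c * U * (2 * c * ℓ) ^ (w + d)) ^ d :=
      pow_le_pow_left₀ hKpos.le hK _
    have e0 : d + (w + d) * d + (w + d) ≤ (w + d + 2) ^ 2 := by nlinarith
    have e1 : (w + d) * d + (w + d) ≤ (w + d + 2) ^ 2 := by nlinarith
    have h5 : (2 * c : ℝ) ^ (d + (w + d) * d + (w + d)) ≤ (2 * c : ℝ) ^ ((w + d + 2) ^ 2) :=
      pow_le_pow_right₀ ha e0
    have h6 : ℓ ^ (Aw + ((w + d) * d + (w + d))) ≤ ℓ ^ (A0 + (w + d + 2) ^ 2) :=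
      pow_le_pow_right₀ hℓ (by omega)
    calc KZ * ((K : ℝ) ^ d * (4 * (r : ℝ) ^ (w + d))) * (Cw * U ^ w * ℓ ^ Aw) ≤
        KZ * ((2 * c * U * (2 * c * ℓ) ^ (w + d)) ^ d * (4 * (2 * c * ℓ) ^ (w + d))) *
          (C0 * U ^ w * ℓ ^ Aw) := by gcongr
      _ = 4 * C0 * KZ * (2 * c : ℝ) ^ (d + (w + d) * d + (w + d)) * U ^ (w + d) *
          ℓ ^ (Aw + ((w + d) * d + (w + d))) := by
        rw [mul_pow, mul_pow, ← pow_mul, mul_pow (2 * (c : ℝ)) ℓ, mul_pow (2 * (c : ℝ)) ℓ]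
        ring
      _ ≤ 4 * C0 * KZ * (2 * c : ℝ) ^ ((w + d + 2) ^ 2) * U ^ (w + d) *
          ℓ ^ (A0 + (w + d + 2) ^ 2) := by gcongr
      _ ≤ _ := by
        have e2 : (4 : ℝ) * 1 ≤ 100 * (((w + d : ℕ) : ℝ) + 2) := by
          exact mul_le_mul (by norm_num) hv' (by norm_num) (by norm_num)
        have e3 : 0 ≤ C0 * KZ * (2 * c : ℝ) ^ ((w + d + 2) ^ 2) * U ^ (w + d) *
          ℓ ^ (A0 + (w + d + 2) ^ 2) := by positivity
        nlinarith [mul_le_mul_of_nonneg_right e2 e3]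
  exact le_of_mul_le_mul_left key hP

/-- a unit congruent to one is not zero -/
theorem prs_ne {L : Type} [Field L] [NumberField L] {P : Ideal (𝓞 L)} {t : ℕ} (ht : 1 ≤ t) {x : L}
    (h : Dv P t (x - 1)) : x ≠ 0 := by
  rintro rfl
  obtain ⟨a, b, hb, ha, hab⟩ := h
  apply hb
  have h1 : a ∈ P := Ideal.pow_le_self (by omega) ha
  have h2 : b = -a := by
    apply RingOfIntegers.coe_injective
    rw [map_neg]
    change (b : L) = -(a : L)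
    rw [← hab]
    ring
  rw [h2]
  exact neg_mem h1

/-- the vector of rational coordinates -/
def prs_cq {n : ℕ} (a : ℤ × (Fin n → ℤ)) : Fin n → ℚ := fun i => ((a.2 i : ℤ) : ℚ)

theorem prs_cq_add {n : ℕ} (a b : ℤ × (Fin n → ℤ)) : prs_cq (a + b) = prs_cq a + prs_cq b := by
  funext i
  simp [prs_cq]

theorem prs_cq_neg {n : ℕ} (a : ℤ × (Fin n → ℤ)) : prs_cq (-a) = -prs_cq a := by
  funext i
  simp [prs_cq]

theorem prs_cq_sub {n : ℕ} (a b : ℤ × (Fin n → ℤ)) : prs_cq (a - b) = prs_cq a - prs_cq b := by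
  funext i
  simp [prs_cq]

theorem prs_cq_zero {n : ℕ} : prs_cq (0 : ℤ × (Fin n → ℤ)) = 0 := by
  funext i
  simp [prs_cq]

theorem prs_sum {n : ℕ} {nrm : ℤ × (Fin n → ℤ) → ℝ} (h0 : nrm 0 = 0)
    (hadd : ∀ a b, nrm (a + b) ≤ nrm a + nrm b) {V : Submodule ℚ (Fin n → ℚ)} {R : ℝ}
    (l : List (ℤ × (Fin n → ℤ))) (hl : ∀ a ∈ l, nrm a ≤ R ∧ prs_cq a ∈ V) :
    nrm l.sum ≤ l.length * R ∧ prs_cq l.sum ∈ V := by
  induction l with
  | nil =>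
    simp only [List.sum_nil, List.length_nil, Nat.cast_zero, zero_mul]
    refine ⟨h0.le, ?_⟩
    rw [prs_cq_zero]
    exact V.zero_mem
  | cons a l ih =>
    obtain ⟨h1, h2⟩ := ih fun b hb => hl b (List.mem_cons_of_mem a hb)
    obtain ⟨h3, h4⟩ := hl a List.mem_cons_self
    rw [List.sum_cons, List.length_cons]
    refine ⟨?_, ?_⟩
    · refine (hadd _ _).trans ?_
      push_cast
      linarith
    · rw [prs_cq_add]
      exact V.add_mem h4 h2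

theorem st_PRS (hJEX : ST_JEX) (hPNP : ST_PNP) (hZV : ST_ZV) : ST_PRS := by
  classical
  intro n D v hv hind
  obtain ⟨c, hc, hpnp⟩ := hPNP n D v hv
  choose! Cf hCf Af hAf using hind
  obtain ⟨C0, hC0, hC0'⟩ : ∃ C0 : ℝ, 1 ≤ C0 ∧ ∀ w < v, Cf w ≤ C0 := by
    refine ⟨1 + ∑ w ∈ Finset.range v, |Cf w|, ?_, ?_⟩
    · have : 0 ≤ ∑ w ∈ Finset.range v, |Cf w| := Finset.sum_nonneg fun _ _ => abs_nonneg _
      linarith
    · intro w hw
      have h1 := Finset.single_le_sum (f := fun w => |Cf w|) (fun _ _ => abs_nonneg _)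
        (Finset.mem_range.2 hw)
      have h2 := le_abs_self (Cf w)
      linarith
  obtain ⟨A0, hA0⟩ : ∃ A0 : ℕ, ∀ w < v, Af w ≤ A0 := by
    refine ⟨∑ w ∈ Finset.range v, Af w, fun w hw => ?_⟩
    exact Finset.single_le_sum (f := fun w => Af w) (fun _ _ => Nat.zero_le _)
      (Finset.mem_range.2 hw)
  obtain ⟨KZn, hKZn⟩ : ∃ KZn : ℕ, KZn = 2 ^ (v + 1) * (v + 1).factorial := ⟨_, rfl⟩
  have hKZ0 : 1 ≤ KZn := by
    rw [hKZn]
    exact Nat.mul_pos (by positivity) (Nat.factorial_pos _)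
  have hKZ1 : (1 : ℝ) ≤ (KZn : ℝ) := by exact_mod_cast hKZ0
  have hc' : (1 : ℝ) ≤ c := by exact_mod_cast hc
  have ha : (1 : ℝ) ≤ 2 * c := by linarith
  have hv0 : (0 : ℝ) ≤ v := Nat.cast_nonneg v
  have hpw : (1 : ℝ) ≤ (2 * c : ℝ) ^ ((v + 2) ^ 2) := one_le_pow₀ ha
  obtain ⟨C, hC⟩ : ∃ C : ℝ, C = C0 * KZn * 100 * (2 * c : ℝ) ^ ((v + 2) ^ 2) * (v + 2) := ⟨_, rfl⟩
  have hCK : 1 ≤ C0 * KZn := one_le_mul_of_one_le_of_one_le hC0 hKZ1
  have hC1 : 100 * C0 * (v + 2) ≤ C := by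
    rw [hC]
    have e1 : C0 * 1 ≤ C0 * KZn := by gcongr
    have e2 : C0 * 1 * 100 * 1 * ((v : ℝ) + 2) ≤
        C0 * KZn * 100 * (2 * c : ℝ) ^ ((v + 2) ^ 2) * (v + 2) := by gcongr
    linarith
  have hC2 : 100 * ((v : ℝ) + 2) ≤ C := by
    have : 1 * (100 * ((v : ℝ) + 2)) ≤ C0 * (100 * ((v : ℝ) + 2)) := by gcongr
    linarith
  have hC3 : 100 * C0 ≤ C := by
    have : 100 * C0 * 1 ≤ 100 * C0 * ((v : ℝ) + 2) := by gcongr; linarith
    linarith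
  have hCpos : 0 < C := by linarith
  refine ⟨C, by linarith, A0 + (v + 2) ^ 2, ?_⟩
  intro L _ _ hL P p g0 g nrm U Z ℓ T hU hZ hℓ hlU hlZ hlp hPD V hV hcount
  have hlp0 : 0 ≤ Real.log p := Real.log_nonneg (by exact_mod_cast hPD.pp.one_le)
  obtain ⟨J, hJ1, hJ2⟩ := hJEX n v V hV
  -- parameters
  have hcl : (1 : ℝ) ≤ c * ℓ := one_le_mul_of_one_le_of_one_le hc' hℓ
  obtain ⟨r, hr⟩ : ∃ r : ℕ, r = ⌈(c : ℝ) * ℓ⌉₊ := ⟨_, rfl⟩
  have hr1 : (c : ℝ) * ℓ ≤ r := by rw [hr]; exact Nat.le_ceil _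
  have hr2 : (r : ℝ) ≤ 2 * c * ℓ := by
    have := Nat.ceil_lt_add_one (a := (c : ℝ) * ℓ) (by linarith)
    rw [← hr] at this
    linarith
  have hr0 : 1 ≤ r := by
    have : (1 : ℝ) ≤ r := hcl.trans hr1
    exact_mod_cast this
  have hr0' : (1 : ℝ) ≤ r := by exact_mod_cast hr0
  have hcU : (1 : ℝ) ≤ c * U * (r : ℝ) ^ v :=
    one_le_mul_of_one_le_of_one_le (one_le_mul_of_one_le_of_one_le hc' hU) (one_le_pow₀ hr0')
  obtain ⟨K, hK⟩ : ∃ K : ℕ, K = ⌈(c : ℝ) * U * (r : ℝ) ^ v⌉₊ := ⟨_, rfl⟩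
  have hK1 : (c : ℝ) * U * (r : ℝ) ^ v ≤ K := by rw [hK]; exact Nat.le_ceil _
  have hK2 : (K : ℝ) ≤ 2 * c * U * (2 * c * ℓ) ^ v := by
    have h1 := Nat.ceil_lt_add_one (a := (c : ℝ) * U * (r : ℝ) ^ v) (by linarith)
    rw [← hK] at h1
    have h2 : (r : ℝ) ^ v ≤ (2 * c * ℓ) ^ v := pow_le_pow_left₀ (by linarith) hr2 v
    have h3 : (c : ℝ) * U * (r : ℝ) ^ v ≤ c * U * (2 * c * ℓ) ^ v := by gcongr
    linarith
  have hK0 : 1 ≤ K := by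
    have : (1 : ℝ) ≤ K := hcU.trans hK1
    exact_mod_cast this
  by_cases hTK : T ≤ K * r
  · rw [hC]
    exact prs_num1 hc hC0 hKZ1 hU hℓ hlp0 hlp hr2 hK2 hTK
  -- the vanishing sum
  obtain ⟨x, hx0, hx⟩ : ∃ x : (Fin v → Fin K) × Fin (4 * r ^ v) → L, x ≠ 0 ∧
      ∀ a : ℤ × (Fin n → ℤ), nrm a ≤ U → (fun i => ((a.2 i : ℤ) : ℚ)) ∈ V →
        ∑ j, x j * ((∏ i, ((a.2 (J i) : ℤ) : L) ^ (j.1 i : ℕ)) *
          (g0 ^ a.1 * ∏ i, g i ^ (a.2 i)) ^ (j.2 : ℕ)) = 0 := by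
    by_contra hcon
    push Not at hcon
    apply hTK
    apply hpnp L hL P p g0 g nrm U Z ℓ T hU hZ hℓ hlZ hPD V hV.le J r K hr1 hK1
    intro x hx
    by_contra hx0
    obtain ⟨a, ha1, ha2, ha3⟩ := hcon x hx0
    exact ha3 (hx a ha1 ha2)
  -- the embedding
  obtain ⟨τ⟩ : Nonempty (L →+* ℂ) := inferInstance
  have hg0 : τ g0 ≠ 0 := (map_ne_zero τ).2 (prs_ne hPD.T1 hPD.T0)
  have hg : ∀ i, τ (g i) ≠ 0 := fun i => (map_ne_zero τ).2 (prs_ne le_rfl (hPD.pu i))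
  let ζ : ℤ × (Fin n → ℤ) →+ (Fin v → ℤ) :=
    { toFun := fun a i => a.2 (J i), map_zero' := rfl, map_add' := fun _ _ => rfl }
  let lam : ℤ × (Fin n → ℤ) →+ ℂ :=
    { toFun := fun a => (a.1 : ℂ) * Complex.log (τ g0) + ∑ i, (a.2 i : ℂ) * Complex.log (τ (g i))
      map_zero' := by simp
      map_add' := fun a b => by
        simp only [Prod.fst_add, Prod.snd_add, Pi.add_apply]
        push_cast
        simp only [add_mul, Finset.sum_add_distrib]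
        ring }
  have hlam : ∀ a, Complex.exp (lam a) = τ (g0 ^ a.1 * ∏ i, g i ^ (a.2 i)) := by
    intro a
    change Complex.exp ((a.1 : ℂ) * Complex.log (τ g0) +
      ∑ i, (a.2 i : ℂ) * Complex.log (τ (g i))) = _
    rw [Complex.exp_add, Complex.exp_int_mul, Complex.exp_log hg0, Complex.exp_sum, map_mul,
      map_zpow₀, map_prod]
    congr 1
    apply Finset.prod_congr rfl
    intro i _
    rw [Complex.exp_int_mul, Complex.exp_log (hg i), map_zpow₀]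
  have hn0 : nrm 0 = 0 := by
    have := hPD.smul 0 0
    rw [smul_zero] at this
    rw [this]
    simp
  have hneg : ∀ a, nrm (-a) = nrm a := by
    intro a
    have := hPD.smul (-1) a
    rw [neg_one_smul] at this
    rw [this]
    simp
  have hUC : U / C ≤ U := div_le_self (by linarith) (by linarith)
  have hUC0 : 0 ≤ U / C := by positivity
  have hfin : ({a : ℤ × (Fin n → ℤ) | nrm a ≤ U / C ∧
      (fun i => ((a.2 i : ℤ) : ℚ)) ∈ V}).Finite :=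
    hPD.fin.subset fun a ha => le_trans ha.1 hUC
  obtain ⟨S, hS⟩ : ∃ S : Finset (ℤ × (Fin n → ℤ)), S = hfin.toFinset := ⟨_, rfl⟩
  have hSm : ∀ a, a ∈ S ↔ nrm a ≤ U / C ∧ prs_cq a ∈ V := by
    intro a
    rw [hS, Set.Finite.mem_toFinset]
    rfl
  rw [Set.ncard_eq_toFinset_card _ hfin, ← hS] at hcount
  have hx0' : (fun j => τ (x j)) ≠ 0 := by
    intro h
    apply hx0
    funext j
    have := congrFun h j
    simp only [Pi.zero_apply] at this ⊢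
    exact (map_eq_zero τ).1 this
  have hLc : 1 ≤ 4 * r ^ v := Nat.mul_pos (by norm_num) (pow_pos (by omega) v)
  have h2v : 2 * ((v : ℝ) + 1) * (U / C) ≤ U := by
    rw [mul_div_assoc', div_le_iff₀ hCpos]
    have : 2 * ((v : ℝ) + 1) ≤ C := by linarith
    nlinarith
  have h2 : 2 * (U / C) ≤ U := by
    have : 0 ≤ (v : ℝ) * (U / C) := by positivity
    nlinarith
  obtain ⟨S1, hS1, hS1n, w, hwv, hw, hcard, hfull⟩ := hZV v hv (ℤ × (Fin n → ℤ)) ζ lam K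
    (4 * r ^ v) hK0 hLc (fun j => τ (x j)) hx0' S
    (by
      rw [hSm, prs_cq_zero, hn0]
      exact ⟨hUC0, V.zero_mem⟩)
    (by
      intro a ha
      rw [hSm] at ha ⊢
      rw [hneg, prs_cq_neg]
      exact ⟨ha.1, V.neg_mem ha.2⟩)
    (by
      intro l hl1 hl2
      obtain ⟨e1, e2⟩ := prs_sum hn0 hPD.add l fun a ha => (hSm a).1 (hl2 a ha)
      have e3 : nrm l.sum ≤ U := by
        refine e1.trans ?_
        rw [hl1]
        push_cast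
        exact h2v
      have e4 := congrArg τ (hx l.sum e3 e2)
      rw [map_zero, map_sum] at e4
      rw [← e4]
      apply Finset.sum_congr rfl
      intro j _
      rw [map_mul, map_mul, map_prod, map_pow, hlam]
      congr 2
      apply Finset.prod_congr rfl
      intro i _
      rw [map_pow, map_intCast]
      rfl)
  rw [← hKZn] at hcard
  have hcardR : (S.card : ℝ) ≤ KZn * ((K : ℝ) ^ (v - w) * (4 * (r : ℝ) ^ v)) * S1.card := by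
    exact_mod_cast hcard
  obtain ⟨b, hb⟩ := hS1n
  have hbS := (hSm b).1 (hS1 hb)
  have hdiff : ∀ a ∈ S1, nrm (a - b) ≤ 2 * (U / C) := by
    intro a ha'
    have e1 := ((hSm a).1 (hS1 ha')).1
    have e2 := hPD.add a (-b)
    rw [hneg, ← sub_eq_add_neg] at e2
    linarith [hbS.1]
  rcases hwv.eq_or_lt with hwe | hwl
  · -- full dimension
    exfalso
    have e1 : S1.card ≤ {a : ℤ × (Fin n → ℤ) | nrm a ≤ U ∧
        g0 ^ a.1 * ∏ i, g i ^ (a.2 i) = 1}.ncard := by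
      have f1 : (S1.image fun a => a - b).card = S1.card :=
        Finset.card_image_of_injective _ fun a a' h => sub_left_injective h
      rw [← f1, ← Set.ncard_coe_finset]
      apply Set.ncard_le_ncard _ (hPD.fin.subset fun a ha => ha.1)
      intro a' ha'
      rw [Finset.mem_coe, Finset.mem_image] at ha'
      obtain ⟨a, ha1, rfl⟩ := ha'
      refine ⟨(hdiff a ha1).trans h2, ?_⟩
      have f2 := hfull hwe a ha1 b hb
      rw [hlam] at f2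
      exact τ.injective (by rw [f2, map_one])
    have e2 : (S1.card : ℝ) ≤ 2 * U + 1 := by
      have : (S1.card : ℝ) ≤ ({a : ℤ × (Fin n → ℤ) | nrm a ≤ U ∧
        g0 ^ a.1 * ∏ i, g i ^ (a.2 i) = 1}.ncard : ℝ) := by exact_mod_cast e1
      exact this.trans hPD.ker
    rw [hwe, Nat.sub_self, pow_zero, one_mul] at hcardR
    rw [hC] at hcount
    exact prs_num2 hc hC0 hv hKZ1 hU hℓ hr2 hcount
      (hcardR.trans (mul_le_mul_of_nonneg_left e2 (by positivity)))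
  · -- smaller dimension
    let f : (Fin n → ℚ) →ₗ[ℚ] (Fin v → ℚ) := LinearMap.funLeft ℚ ℚ J
    let V' : Submodule ℚ (Fin n → ℚ) :=
      Submodule.span ℚ {u | ∃ a ∈ S1, ∃ a' ∈ S1, u = prs_cq (a - a')}
    have hV' : V' ≤ V := by
      rw [Submodule.span_le]
      rintro u ⟨a, ha1, a', ha2, rfl⟩
      rw [prs_cq_sub]
      exact V.sub_mem ((hSm a).1 (hS1 ha1)).2 ((hSm a').1 (hS1 ha2)).2
    have hmap : V'.map f = Submodule.span ℚ {u : Fin v → ℚ | ∃ a ∈ S1, ∃ b ∈ S1,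
        u = fun i => ((ζ (a - b) i : ℤ) : ℚ)} := by
      rw [Submodule.map_span]
      congr 1
      ext u
      constructor
      · rintro ⟨_, ⟨a, ha1, a', ha2, rfl⟩, rfl⟩
        exact ⟨a, ha1, a', ha2, rfl⟩
      · rintro ⟨a, ha1, a', ha2, rfl⟩
        exact ⟨_, ⟨a, ha1, a', ha2, rfl⟩, rfl⟩
    have hfr : Module.finrank ℚ V' = w := by
      rw [hw, ← hmap, ← LinearMap.range_domRestrict]
      symm
      apply LinearMap.finrank_range_of_inj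
      rw [← LinearMap.ker_eq_bot, LinearMap.ker_eq_bot']
      rintro ⟨y, hy⟩ hy0
      have f1 : y = 0 := hJ2 y (hV' hy) fun i => congrFun hy0 i
      subst f1
      rfl
    have h2C : 2 * (U / C) ≤ U / Cf w := by
      have f1 : 0 < Cf w := by linarith [hCf w hwl]
      rw [mul_div_assoc', div_le_div_iff₀ hCpos f1]
      have f2 : 2 * Cf w ≤ C := by
        have := hC0' w hwl
        linarith
      nlinarith
    have e1 : S1.card ≤ {a : ℤ × (Fin n → ℤ) | nrm a ≤ U / Cf w ∧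
        (fun i => ((a.2 i : ℤ) : ℚ)) ∈ V'}.ncard := by
      have f1 : (S1.image fun a => a - b).card = S1.card :=
        Finset.card_image_of_injective _ fun a a' h => sub_left_injective h
      rw [← f1, ← Set.ncard_coe_finset]
      have f0 : U / Cf w ≤ U := div_le_self (by linarith) (hCf w hwl)
      apply Set.ncard_le_ncard _ (hPD.fin.subset fun a ha => le_trans ha.1 f0)
      intro a' ha'
      rw [Finset.mem_coe, Finset.mem_image] at ha'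
      obtain ⟨a, ha1, rfl⟩ := ha'
      exact ⟨(hdiff a ha1).trans h2C, Submodule.subset_span ⟨a, ha1, b, hb, rfl⟩⟩
    have e2 : (S1.card : ℝ) ≤ ({a : ℤ × (Fin n → ℤ) | nrm a ≤ U / Cf w ∧
        (fun i => ((a.2 i : ℤ) : ℚ)) ∈ V'}.ncard : ℝ) := by exact_mod_cast e1
    rw [hC] at hcount
    have e3 := prs_num3 (N1 := (S1.card : ℝ)) hc (hCf w hwl) (hC0' w hwl) (hA0 w hwl) hwl hK0 hr0
      hKZ1 hU hℓ hr2 hK2 hcount hcardR
    have e4 := hAf w hwl L hL P p g0 g nrm U Z ℓ T hU hZ hℓ hlU hlZ hlp hPD V' hfr (e3.trans e2)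
    refine e4.trans ?_
    have f1 : Cf w ≤ C := by
      have := hC0' w hwl
      linarith [hCf w hwl]
    have f2 : ℓ ^ Af w ≤ ℓ ^ (A0 + (v + 2) ^ 2) :=
      pow_le_pow_right₀ hℓ (by have := hA0 w hwl; omega)
    have f3 : 0 ≤ Cf w := by linarith [hCf w hwl]
    gcongr

end Pool.Helper99.SZ
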